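import Mathlib

/-!
# MP_9803f8_al: high transitivity is not weakly geometric (proof by helper230, interface by helper609)

Every `S_X` is a closed Prop with its proof in the comment; deliver `theorem t_X : S_X` in
`Pool/Agent/Run7/h<you>/HT/X.lean`, importing this file, standard axioms.
-/

set_option autoImplicit false

open Function

namespace Pool.Agent.Run7.h609.HT

/-- the word length of `g` with respect to `S`: the least length of a word in the elements of `S` and
their inverses with product `g` -/
noncomputable def wl {G : Type} [Group G] (S : Set G) (g : G) : ℕ :=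
  sInf {n : ℕ | ∃ l : List G, l.length = n ∧ (∀ x ∈ l, x ∈ S ∨ x⁻¹ ∈ S) ∧ l.prod = g}

/-- `G` and `H` are quasi-isometric: for all finite generating sets `S`, `T` there is a quasi-isometry
`f : G → H` for the word metrics `wl S (g⁻¹ g')` and `wl T (h⁻¹ h')` -/
def QuasiIsometric (G H : Type) [Group G] [Group H] : Prop :=
  ∀ (S : Finset G) (T : Finset H), Subgroup.closure (S : Set G) = ⊤ →
    Subgroup.closure (T : Set H) = ⊤ → ∃ (f : G → H) (A B : ℕ),
    (∀ g g' : G, wl (T : Set H) ((f g)⁻¹ * f g') ≤ A * wl (S : Set G) (g⁻¹ * g') + B) ∧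
    (∀ g g' : G, wl (S : Set G) (g⁻¹ * g') ≤ A * wl (T : Set H) ((f g)⁻¹ * f g') + B) ∧
    ∀ h : H, ∃ g : G, wl (T : Set H) ((f g)⁻¹ * h) ≤ B

/-- `G` has a faithful highly transitive action on some countably infinite set -/
def HighlyTransitive (G : Type) [Group G] : Prop :=
  ∃ (Ω : Type) (_ : MulAction G Ω), Countable Ω ∧ Infinite Ω ∧ FaithfulSMul G Ω ∧
    ∀ (k : ℕ) (x y : Fin k → Ω), Injective x → Injective y → ∃ g : G, ∀ i, g • x i = y i

/-- some finite index subgroup of `G` is isomorphic to some finite index subgroup of `L` -/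
def Commensurable (G L : Type) [Group G] [Group L] : Prop :=
  ∃ (G' : Subgroup G) (L' : Subgroup L), G'.FiniteIndex ∧ L'.FiniteIndex ∧ Nonempty (G' ≃* L')

/-- the pairs `(σ, γ)` such that the permutation `σ` agrees with `γ` outside of a finite set -/
def GG (Γ X : Type) [Group Γ] [MulAction Γ X] : Subgroup (Equiv.Perm X × Γ) where
  carrier := {p | {x | p.1 x ≠ p.2 • x}.Finite}
  one_mem' := by simp
  mul_mem' := by
    intro p q hp hq
    have h1 : ({x | q.1 x ≠ q.2 • x} ∪ q.1 ⁻¹' {x | p.1 x ≠ p.2 • x}).Finite :=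
      Set.Finite.union hq (Set.Finite.preimage q.1.injective.injOn hp)
    refine h1.subset ?_
    intro x hx
    by_contra hc
    simp only [Set.mem_union, Set.mem_ofPred_eq, Set.mem_preimage, not_or, not_not] at hc
    apply hx
    show p.1 (q.1 x) = (p.2 * q.2) • x
    rw [hc.2, hc.1, mul_smul]
  inv_mem' := by
    intro p hp
    refine (Set.Finite.image p.1 hp).subset ?_
    intro x hx
    refine ⟨p.1⁻¹ x, ?_, by simp⟩
    intro hc
    apply hx
    show p.1⁻¹ x = p.2⁻¹ • x
    rw [eq_inv_smul_iff, ← hc]
    simp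

/-- **QIS** (60 lines). A surjective homomorphism with finite kernel is a quasi-isometry. Proof. `f = p`. Every element
has a word (`Subgroup.closure_induction` / `Subgroup.exists_list_of_mem_closure`), `wl` is attained (`Nat.sInf_mem`), and
`wl (g g') ≤ wl g + wl g'`; so for a homomorphism `p` and `A ≥ wl T (p s)` for all `s ∈ S`: `wl T (p g) ≤ A wl S g`
(the length of the inverse is the same). For the other inequality let `r t` be a preimage of `t ∈ T`, `A ≥ wl S (r t)`, and
`B ≥ wl S k` for all `k` in the kernel: a word of `p g` lifts to a product `g'` of the `r t`'s and inverses, `g = g' k`, `k` in the kernel, so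
`wl S g ≤ A wl T (p g) + B`. -/
def S_QIS : Prop := ∀ (G H : Type) [Group G] [Group H] (p : G →* H), Surjective p → Finite p.ker →
  QuasiIsometric G H

/-- **TRA** (50 lines). Proof. If `z ≠ 1` there is `ω` with `ω' = z • ω ≠ ω` (faithful). The stabiliser of `ω` in `L'` fixes `ω'`
(`g • z • ω = z • g • ω`), it has finite index in the stabiliser `L_ω` of `ω` in `L` (`L'.subgroupOf (stabilizer L ω)` has
finite index); so the orbit of `ω'` under `L_ω` is finite, but it contains all points different from `ω`
(take `a = c = ω`). -/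
def S_TRA : Prop := ∀ (L Ω : Type) [Group L] [MulAction L Ω], Infinite Ω → FaithfulSMul L Ω →
  (∀ a b c e : Ω, a ≠ b → c ≠ e → ∃ g : L, g • a = c ∧ g • b = e) →
  ∀ L' : Subgroup L, L'.FiniteIndex → ∀ z ∈ L', (∀ g ∈ L', g * z = z * g) → z = 1

/-- **EXT** (40 lines). Proof. The finite set `F = range x ∪ range y`; the bijection `x i ↦ y i` of `range x` onto `range y`
extends to a permutation of `F` (`Equiv.extendSubtype`), and this to a permutation of `X` which fixes the other
points (`Equiv.Perm.ofSubtype`). Or: induction on `k` with `Equiv.swap`. -/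
def S_EXT : Prop := ∀ (X : Type) (k : ℕ) (x y : Fin k → X), Injective x → Injective y →
  ∃ σ : Equiv.Perm X, {a | σ a ≠ a}.Finite ∧ ∀ i, σ (x i) = y i

/-- **FGG** (90 lines). Proof. Let `S` be a finite symmetric generating set of `Γ`, `ρ = MulAction.toPerm`. Let `K` be the subgroup generated by
the `(swap x₀ (s • x₀), 1)` and the `(ρ s, s)`, `s ∈ S`. It contains all `(ρ γ, γ)`, hence (conjugation) all
`(swap (γ • x₀) (γ • s • x₀), 1)`; by induction on the word length of `γ` (`γ s`) it contains all `(swap x₀ (γ • x₀), 1)`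
(`swap a c = swap a b * swap b c * swap a b` for different `a, b, c`), hence all `(swap x₀ x, 1)`, all `(swap x y, 1)`, and all `(σ, 1)` with
`σ` finitary (`Equiv.Perm.mem_closure_isSwap'` in `Mathlib.GroupTheory.Perm.ClosureSwap`). For `(σ, γ)` in `GG` the
element `(σ, γ) (ρ γ, γ)⁻¹ = (σ (ρ γ)⁻¹, 1)` is of this kind. -/
def S_FGG : Prop := ∀ (Γ X : Type) [Group Γ] [MulAction Γ X] (x₀ : X), Group.FG Γ →
  (∀ x : X, ∃ γ : Γ, γ • x₀ = x) → Group.FG (GG Γ X)

/-- the group `Γ` (helper609): a finitely generated group with a central element `z` of order two in all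
subgroups of finite index and a transitive action in which only `1` and `z` move finitely many points -/
def S_GAM : Prop := ∃ (Γ : Type) (_ : Group Γ) (X : Type) (_ : MulAction Γ X) (z : Γ) (x₀ : X),
  Countable X ∧ Infinite X ∧ Group.FG Γ ∧ (∀ x : X, ∃ γ : Γ, γ • x₀ = x) ∧ z ≠ 1 ∧
  (∀ γ : Γ, γ * z = z * γ) ∧ (∀ x : X, z • x = x) ∧
  (∀ γ : Γ, {x : X | γ • x ≠ x}.Finite → γ = 1 ∨ γ = z) ∧
  ∀ N : Subgroup Γ, N.FiniteIndex → z ∈ N

end Pool.Agent.Run7.h609.HT
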